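import Pool.Agent.Q298.GS.Ind

/-!
The estimates for linear systems with several components, relative to a subfield.
-/

set_option autoImplicit false
set_option linter.unusedSectionVars false

open FF hiding phi
open Module Pool.Agent.W603.LV Pool.Agent.W602.GT Pool.Agent.W602.Cov Pool.Agent.W602.Cov.G
open Pool.Agent.W168.CG.PGR Pool.Agent.TH152.AC Pool.Agent.TH152.HY Pool.Agent.TH766.MC
open Pool.Agent.TH585.SV

namespace Pool.Agent.Q298.GS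

open Pool.Agent.Q298.JS

variable {N d e k n q c : ℕ} {ℓ : Fin q → Form n} {γ : Fin q → Fin c} {K : Type} [Field K]
  [Algebra ℂ K] {L : IntermediateField ℂ K} {u : Fin e → K} {Dt : Fin d → Derivation ℂ K K}
  {Du : Fin e → Derivation ℂ K K}

/-- **The estimate, one section, weak inequality.** -/
theorem rest (hn : 1 ≤ n) (hℓ : ∀ i, ℓ i ≠ 0) (hγ : Comps ℓ γ)
    (hc1 : ¬ Splits ℓ (c + 1)) (hspan : Submodule.span ℂ (Set.range ℓ) = ⊤) {R : ℕ}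
    (hR : Bound ℓ c R) {x : Fin (n + 1) → K}
    (hliA : LinearIndependent (Pool.Agent.Y172.acl ℂ (L : Set K)) x) (hdk : d + k = n)
    (σ : Fin (d + 1) → Fin (n + 1)) (hσ : x (σ 0) = 1)
    (F : RFr L (fun j => x (σ j.succ)) u Dt Du) (hx : ∀ j, Hz Du (x j))
    (X : Set (Place ℂ K)) (δ : Place ℂ K → ℝ) (hδ : ∀ P ∈ X, 0 ≤ δ P) {s : ℝ}
    (hs : (R : ℝ) * ((k + 1) * (k + 2)) ≤ 2 * s) (h : HighV N ℓ γ x X δ s) :
    ∃ M : ℕ, 0 < M ∧ ∃ f : K, f ≠ 0 ∧ ∀ P ∈ X, Divisorial N P → ∀ E : Fin d → Derivation ℂ K K,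
      (∀ i, DerReg P (E i)) → (∀ i, Kl L (E i)) → ∃ c' : ℤ,
        Ge P c' ((mtx (fun j => x (σ j.succ)) E).det ^ M * f) ∧ -(M * δ P) ≤ (c' : ℝ) := by
  have hli : LinearIndependent ℂ x := liC hliA
  have hlx : ∀ i, lf (ℓ i) x ≠ 0 := fun i => lf_ne_of_li hli (hℓ i)
  obtain ⟨hB, hconn⟩ := hγ.blocks hℓ hspan hc1
  obtain ⟨p, hp⟩ := exists_wt hn hℓ hR (splits_le hγ.splits).1 hspan hB hconn
  have hR1 := hR.pos hγ.splits
  have hp0 := hp.1
  obtain ⟨ε, S, hW, hform⟩ := F.form hℓ hspan hliA hdk σ hσ hx p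
  obtain ⟨W, hWd⟩ : ∃ W : ℕ, W = 1 + ∑ a, (S a).length := ⟨_, rfl⟩
  have hW1 : 1 ≤ W := by omega
  obtain ⟨hne, hE⟩ := hform 1
  rw [← hWd] at hW hE
  refine ⟨W * (1 * ∑ B, p B), Nat.mul_pos hW1 (by omega), sg ℓ x p 1 ε S Dt, hne, ?_⟩
  intro P hPX hPd E hEr hEL
  rw [← hE E hEL]
  obtain ⟨a, v, v', m, c', M, -, -, hc, -, hM0, hM⟩ :=
    sub_ord2 hB hspan hp hlx h 1 ε S hPX hPd hEr
  rw [← hWd] at hM
  refine ⟨c', hc, ?_⟩
  have hN0 : (0 : ℝ) ≤ ∑ B, (p B : ℝ) := by positivity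
  have hW0 : (0 : ℝ) ≤ W := by positivity
  push_cast
  rcases hM with ⟨-, h0⟩ | ⟨h1, h2⟩
  · have h3 := mul_nonneg (mul_nonneg hW0 hN0) (hδ P hPX)
    linarith
  · have h1' := arith0 hW hs hM0 h1
    have h4 := mul_le_mul_of_nonneg_left h1' hN0
    have hpos : (0 : ℝ) < R := by exact_mod_cast hR1
    push_cast at h2
    refine le_of_mul_le_mul_left ?_ hpos
    nlinarith

/-- **The estimate, with several sections.** -/
theorem rest_kod (hn : 1 ≤ n) (hℓ : ∀ i, ℓ i ≠ 0) (hγ : Comps ℓ γ)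
    (hc1 : ¬ Splits ℓ (c + 1)) (hspan : Submodule.span ℂ (Set.range ℓ) = ⊤) {R : ℕ}
    (hR : Bound ℓ c R) {x : Fin (n + 1) → K}
    (hliA : LinearIndependent (Pool.Agent.Y172.acl ℂ (L : Set K)) x) (hdk : d + k = n)
    (hx0 : x 0 = 1) (hd : Algebra.trdeg L (IntermediateField.adjoin L (Set.range x)) = d)
    (σ : Fin (d + 1) → Fin (n + 1)) (hσ : x (σ 0) = 1)
    (F : RFr L (fun j => x (σ j.succ)) u Dt Du) (hx : ∀ j, Hz Du (x j))
    (X : Set (Place ℂ K)) (δ : Place ℂ K → ℝ) (hδ : ∀ P ∈ X, 0 ≤ δ P) {s : ℝ}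
    (hs : (R : ℝ) * ((k + 1) * (k + 2)) < 2 * s) (h : HighV N ℓ γ x X δ s) {κ : ℕ}
    (hκ : κ + c = d + 1) :
    ∃ M : ℕ, 0 < M ∧ ∃ f : K, f ≠ 0 ∧ ∃ w : Fin (κ + 1) → K, w 0 = 1 ∧
      AlgebraicIndependent L (fun i : Fin κ => w i.succ) ∧
      (∀ j, w j ∈ IntermediateField.adjoin L (Set.range x)) ∧
      ∀ P ∈ X, Divisorial N P → ∀ E : Fin d → Derivation ℂ K K,
      (∀ i, DerReg P (E i)) → (∀ i, Kl L (E i)) → ∀ j, ∃ c' : ℤ,
        Ge P c' ((mtx (fun j => x (σ j.succ)) E).det ^ M * (f * w j)) ∧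
          -(M * δ P) ≤ (c' : ℝ) := by
  have hli : LinearIndependent ℂ x := liC hliA
  have hlx : ∀ i, lf (ℓ i) x ≠ 0 := fun i => lf_ne_of_li hli (hℓ i)
  obtain ⟨hB, hconn⟩ := hγ.blocks hℓ hspan hc1
  obtain ⟨p, hp⟩ := exists_wt hn hℓ hR (splits_le hγ.splits).1 hspan hB hconn
  have hR1 := hR.pos hγ.splits
  have hRpos : (0 : ℝ) < R := by exact_mod_cast hR1
  obtain ⟨B0⟩ := exists_bases hspan
  have i0 : Fin q := B0.1 0
  obtain ⟨ε, S, hW, hform⟩ := F.form hℓ hspan hliA hdk σ hσ hx p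
  obtain ⟨W, hWd⟩ : ∃ W : ℕ, W = 1 + ∑ a, (S a).length := ⟨_, rfl⟩
  have hW1 : 1 ≤ W := by omega
  rw [← hWd] at hW
  have hW1' : (1 : ℝ) ≤ W := by exact_mod_cast hW1
  have hW' : (2 : ℝ) * W ≤ (k + 1) * (k + 2) := by exact_mod_cast hW
  have hRW : (R : ℝ) * W < s := by
    have h1 : (R : ℝ) * (2 * W) ≤ R * ((k + 1) * (k + 2)) :=
      mul_le_mul_of_nonneg_left hW' hRpos.le
    linarith
  have hN1 : (1 : ℝ) ≤ ∑ B, (p B : ℝ) := by exact_mod_cast hp.1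
  obtain ⟨t, ht⟩ := exists_nat_gt ((R : ℝ) * s / (s - R * W))
  have hsR : 0 < s - R * W := sub_pos.2 hRW
  have hspos : 0 < s := lt_of_le_of_lt (by positivity) hRW
  have ht0 : (0 : ℝ) < t := lt_trans (by positivity) ht
  have ht0' : 0 < t := by exact_mod_cast ht0
  have htA : (R : ℝ) * s ≤ (t * ∑ B, (p B : ℝ)) * (s - R * W) := by
    have h1 := (div_lt_iff₀ hsR).1 ht
    have h2 : (t : ℝ) * (s - R * W) ≤ (t * ∑ B, (p B : ℝ)) * (s - R * W) :=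
      mul_le_mul_of_nonneg_right (le_mul_of_one_le_right ht0.le hN1) hsR.le
    linarith
  choose rr hrr using fun j => hB.cp_ne B0 j
  have hrr' : ∀ j, γ (B0.1 (rr j)) = j := fun j => mem_cp.1 (hrr j)
  obtain ⟨ι, hι⟩ := indep_relG (L := L) B0 hlx hx0 hd rr hrr' hκ
  let u : Fin κ → K := fun i => lf (ℓ (B0.1 (ι i))) x / lf (ℓ (B0.1 (rr (γ (B0.1 (ι i)))))) x
  let w : Fin (κ + 1) → K := Fin.cons 1 u
  have hw : ∀ (P : Place ℂ K) (a : ℤ) (v v' : Fin q → ℕ) (m : Fin c → ℕ),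
      (∀ i, P.ord (lf (ℓ i) x) = a + v i) → (∀ i, v i = v' i + m (γ i)) →
      ∀ j, ∃ i, Ge P (-(v' i : ℤ)) (w j) := by
    intro P a v v' m hord hm j
    refine Fin.cases ?_ (fun i => ?_) j
    · refine ⟨i0, Or.inr ?_⟩
      change _ ≤ P.ord (1 : K)
      rw [P.ord_one]
      linarith [Int.natCast_nonneg (v' i0)]
    · refine ⟨B0.1 (rr (γ (B0.1 (ι i)))), Or.inr ?_⟩
      change _ ≤ P.ord (lf (ℓ (B0.1 (ι i))) x / lf (ℓ (B0.1 (rr (γ (B0.1 (ι i)))))) x)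
      rw [P.ord_div (hlx _) (hlx _), hord, hord, hm (B0.1 (ι i)), hm (B0.1 (rr _)), hrr']
      push_cast
      linarith [Int.natCast_nonneg (v' (B0.1 (ι i)))]
  obtain ⟨hne, hE⟩ := hform t
  rw [← hWd] at hE
  refine ⟨W * (t * ∑ B, p B), Nat.mul_pos hW1 (Nat.mul_pos ht0' hp.1), sg ℓ x p t ε S Dt, hne, w,
    rfl, ?_, fun j => ?_, ?_⟩
  · exact hι
  · refine Fin.cases ?_ (fun i => ?_) j
    · exact one_mem _
    · change lf (ℓ (B0.1 (ι i))) x / lf (ℓ (B0.1 (rr (γ (B0.1 (ι i)))))) x ∈ _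
      have h1 : ∀ φ : Form n, lf φ x ∈ IntermediateField.adjoin L (Set.range x) := by
        intro φ
        rw [lf_eq_smul]
        refine sum_mem fun j _ => ?_
        rw [Algebra.smul_def]
        exact mul_mem ((IntermediateField.adjoin L (Set.range x)).algebraMap_mem
          (algebraMap ℂ L _)) (IntermediateField.subset_adjoin _ _ ⟨j, rfl⟩)
      exact div_mem (h1 _) (h1 _)
  · intro P hPX hPd D hD hDL j
    obtain ⟨a, v, v', m, c', M, hv, hm, hc, hvM, hM0, hM⟩ :=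
      sub_ord2 hB hspan hp hlx h t ε S hPX hPd hD
    rw [← hWd] at hM
    obtain ⟨i, hi⟩ := hw P a v v' m hv hm j
    have h5 := hc.mul hi
    rw [hE D hDL, mul_assoc] at h5
    refine ⟨_, h5, ?_⟩
    push_cast
    obtain ⟨A, hA⟩ : ∃ A : ℝ, A = t * ∑ B, (p B : ℝ) := ⟨_, rfl⟩
    rw [← hA] at htA hM ⊢
    have hA0 : (0 : ℝ) ≤ A := by rw [hA]; positivity
    have hMi := hvM i
    have hδA := mul_nonneg (mul_nonneg (by positivity : (0 : ℝ) ≤ W) hA0) (hδ P hPX)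
    rcases hM with ⟨hM1, hM2⟩ | ⟨hM1, hM2⟩
    · rw [hM1] at hMi
      linarith
    · have hWA : (0 : ℝ) ≤ W * A := by positivity
      have e1 : (W * A) * (s * (1 - δ P)) ≤ (W * A) * M := mul_le_mul_of_nonneg_left hM1 hWA
      have e2 : (R : ℝ) * s * M ≤ A * (s - R * W) * M := mul_le_mul_of_nonneg_right htA hM0
      have e3 : s * (A * M) ≤ s * (R * (c' + W * A)) := mul_le_mul_of_nonneg_left hM2 hspos.le
      have e4 : (R : ℝ) * ((W * A) * (s * (1 - δ P))) ≤ R * ((W * A) * M) :=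
        mul_le_mul_of_nonneg_left e1 hRpos.le
      have e5 : M ≤ c' + W * A * δ P := by
        have hpp : (0 : ℝ) < R * s := mul_pos hRpos hspos
        refine le_of_mul_le_mul_left ?_ hpp
        nlinarith
      linarith

end Pool.Agent.Q298.GS
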