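import Pool.Agent.Q298.JS.Rel4

/-!
Independent ratios of members within the components, relative to a subfield.
-/

set_option autoImplicit false
set_option linter.unusedSectionVars false

open FF hiding phi
open Module Pool.Agent.W603.LV Pool.Agent.W602.GT Pool.Agent.W602.Cov Pool.Agent.W602.Cov.G
open Pool.Agent.W168.CG.PGR Pool.Agent.TH152.AC Pool.Agent.TH152.HY Pool.Agent.TH766.MC
open Pool.Agent.TH585.SV

namespace Pool.Agent.Q298.GS

open Pool.Agent.Q298.JS

variable {d n q c : ℕ} {K : Type} [Field K] [Algebra ℂ K] {L : IntermediateField ℂ K}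

/-- an element of a family of independent elements is not `1` -/
theorem ne_one {ι : Type} {f : ι → K} (h : AlgebraicIndependent L f) (i : ι) : f i ≠ 1 := by
  intro h0
  exact (h.transcendental i) (by rw [h0]; exact isAlgebraic_one)

/-- independent ratios of the members within the components -/
theorem indep_relG {ℓ : Fin q → Form n} {γ : Fin q → Fin c} (B0 : Bases ℓ) {x : Fin (n + 1) → K}
    (hlx : ∀ i, lf (ℓ i) x ≠ 0) (hx0 : x 0 = 1)
    (hd : Algebra.trdeg L (IntermediateField.adjoin L (Set.range x)) = d)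
    (rr : Fin c → Fin (n + 1)) (hrr : ∀ j, γ (B0.1 (rr j)) = j) {h : ℕ} (hh : h + c = d + 1) :
    ∃ ι : Fin h → Fin (n + 1), AlgebraicIndependent L fun i =>
      lf (ℓ (B0.1 (ι i))) x / lf (ℓ (B0.1 (rr (γ (B0.1 (ι i)))))) x := by
  classical
  obtain ⟨X, hX⟩ : ∃ X : Fin (n + 1) → K, ∀ a, X a = lf (ℓ (B0.1 a)) x := ⟨_, fun _ => rfl⟩
  have hX0 : ∀ a, X a ≠ 0 := fun a => by
    rw [hX]
    exact hlx _
  obtain ⟨r, hr⟩ : ∃ r : Fin (n + 1) → Fin (n + 1), ∀ a, r a = rr (γ (B0.1 a)) :=
    ⟨_, fun _ => rfl⟩
  have hrrr : ∀ j, r (rr j) = rr j := fun j => by rw [hr, hrr]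
  have hr2 : ∀ a, r (r a) = r a := fun a => by
    rw [hr a]
    exact hrrr _
  obtain ⟨a0, ha0⟩ : ∃ a0, a0 = r 0 := ⟨_, rfl⟩
  have hra0 : r a0 = a0 := by rw [ha0]; exact hr2 0
  obtain ⟨g, hg⟩ : ∃ g : Fin (n + 1) → K, ∀ a, g a = if r a = a then X a / X a0 else
    X a / X (r a) := ⟨_, fun _ => rfl⟩
  obtain ⟨E, hE⟩ : ∃ E : IntermediateField L K, E = IntermediateField.adjoin L (Set.range g) :=
    ⟨_, rfl⟩
  have hgE : ∀ a, g a ∈ E := fun a => by
    rw [hE]
    exact IntermediateField.subset_adjoin L _ ⟨a, rfl⟩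
  have hE1' : ∀ a, r a = a → X a / X a0 ∈ E := by
    intro a ha
    have h1 := hgE a
    rwa [hg, if_pos ha] at h1
  have hE1 : ∀ a, X a / X a0 ∈ E := by
    intro a
    by_cases ha : r a = a
    · exact hE1' a ha
    · have h1 := hgE a
      rw [hg, if_neg ha] at h1
      have h2 := mul_mem h1 (hE1' (r a) (hr2 a))
      rwa [div_mul_div_cancel₀ (hX0 _)] at h2
  have hle : E ≤ IntermediateField.adjoin L (Set.range x) := by
    have h1 : ∀ φ : Form n, lf φ x ∈ IntermediateField.adjoin L (Set.range x) := by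
      intro φ
      rw [lf_eq_smul]
      refine sum_mem fun j _ => ?_
      rw [Algebra.smul_def]
      exact mul_mem ((IntermediateField.adjoin L (Set.range x)).algebraMap_mem
        (algebraMap ℂ L _)) (IntermediateField.subset_adjoin _ _ ⟨j, rfl⟩)
    have h2 : ∀ a, X a ∈ IntermediateField.adjoin L (Set.range x) := fun a => by
      rw [hX]
      exact h1 _
    rw [hE, IntermediateField.adjoin_le_iff]
    rintro _ ⟨a, rfl⟩
    rw [hg]
    split_ifs
    · exact div_mem (h2 a) (h2 a0)
    · exact div_mem (h2 a) (h2 _)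
  have hge : IntermediateField.adjoin L (Set.range x) ≤ E := by
    have h1 : ∀ φ : Form n, lf φ x / X a0 ∈ E := by
      intro φ
      have hφ : φ ∈ Submodule.span ℂ (Set.range (bas B0)) := by
        rw [(bas B0).span_eq]; trivial
      induction hφ using Submodule.span_induction with
      | mem φ hφ =>
        obtain ⟨a, rfl⟩ := hφ
        rw [bas_apply, ← hX]
        exact hE1 a
      | zero => rw [lf_zero, zero_div]; exact zero_mem _
      | add φ ψ _ _ h1 h2 => rw [lf_add, add_div]; exact add_mem h1 h2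
      | smul c φ _ h1 =>
        rw [lf_smul, mul_div_assoc]
        exact mul_mem (E.algebraMap_mem (algebraMap ℂ L c)) h1
    rw [IntermediateField.adjoin_le_iff]
    rintro _ ⟨j, rfl⟩
    have h2 := h1 (LinearMap.proj j)
    have h3 := h1 (LinearMap.proj 0)
    rw [lf_proj] at h2 h3
    have h4 := div_mem h2 h3
    rwa [hx0, div_div_div_cancel_right₀ (hX0 _), div_one] at h4
  have heq := le_antisymm hle hge
  rw [← heq, hE] at hd
  obtain ⟨τ, hτ⟩ := exists_sub hd
  have hτ0 : ∀ i, τ i ≠ a0 := by
    intro i h0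
    have h1 := ne_one hτ i
    apply h1
    change g (τ i) = 1
    rw [h0, hg, if_pos hra0, div_self (hX0 _)]
  have hτi : Function.Injective τ := by
    intro i j hij
    apply hτ.injective
    change g (τ i) = g (τ j)
    rw [hij]
  -- few indices of the first kind
  have hcard1 : (Finset.univ.filter fun a : Fin (n + 1) => r a = a).card = c := by
    rw [← Fintype.card_subtype, ← Fintype.card_fin c]
    refine Fintype.card_congr
      { toFun := fun a => γ (B0.1 a)
        invFun := fun j => ⟨rr j, hrrr j⟩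
        left_inv := fun a => Subtype.ext (by
          have := a.2
          rwa [hr] at this)
        right_inv := fun j => hrr j }
  have hcard2 : (Finset.univ.filter fun i : Fin d => r (τ i) = τ i).card + 1 ≤ c := by
    have h1 : ((Finset.univ.filter fun i : Fin d => r (τ i) = τ i).image τ) ⊆
        (Finset.univ.filter fun a : Fin (n + 1) => r a = a).erase a0 := by
      intro a ha
      rw [Finset.mem_image] at ha
      obtain ⟨i, hi, rfl⟩ := ha
      rw [Finset.mem_filter] at hi
      rw [Finset.mem_erase, Finset.mem_filter]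
      exact ⟨hτ0 i, Finset.mem_univ _, hi.2⟩
    have h2 := Finset.card_le_card h1
    rw [Finset.card_image_of_injective _ hτi] at h2
    have h3 : ((Finset.univ.filter fun a : Fin (n + 1) => r a = a).erase a0).card + 1 =
        (Finset.univ.filter fun a : Fin (n + 1) => r a = a).card :=
      Finset.card_erase_add_one (Finset.mem_filter.2 ⟨Finset.mem_univ _, hra0⟩)
    omega
  have hcard3 : h ≤ (Finset.univ.filter fun i : Fin d => ¬ r (τ i) = τ i).card := by
    have h1 := Finset.card_filter_add_card_filter_not (s := (Finset.univ : Finset (Fin d)))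
      (fun i => r (τ i) = τ i)
    rw [Finset.card_univ, Fintype.card_fin] at h1
    omega
  obtain ⟨T, hTs, hTc⟩ := Finset.exists_subset_card_eq hcard3
  let e : Fin h ≃ T := (Fintype.equivFinOfCardEq (by rw [Fintype.card_coe, hTc])).symm
  refine ⟨fun i => τ (e i), ?_⟩
  have h1 : (fun i : Fin h => lf (ℓ (B0.1 (τ (e i)))) x /
      lf (ℓ (B0.1 (rr (γ (B0.1 (τ (e i))))))) x) = fun i => g (τ (e i)) := by
    funext i
    have h2 := hTs (e i).2
    rw [Finset.mem_filter] at h2
    rw [hg, if_neg h2.2, hX, hX, hr]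
  rw [h1]
  exact hτ.comp (fun i => ((e i : T) : Fin d)) (Subtype.val_injective.comp e.injective)

end Pool.Agent.Q298.GS
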