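import Pool.Agent.Q298.GS.Est
import Pool.Agent.Q298.JS.TowB

/-!
One linear system with several components, relative to a subfield.
-/

set_option autoImplicit false
set_option linter.unusedSectionVars false

open FF hiding phi
open Module Pool.Agent.W603.LV Pool.Agent.W602.GT Pool.Agent.W602.Cov Pool.Agent.W602.Cov.G
open Pool.Agent.TH152.AC hiding pf
open Pool.Agent.W168.CG.PGR Pool.Agent.TH152.HY Pool.Agent.TH766.MC
open Pool.Agent.TH585.SV

namespace Pool.Agent.Q298.GS

open Pool.Agent.Q298.JS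

variable {N d e k q c lam : ℕ} {K : Type} [Field K] [Algebra ℂ K]

/-- **One linear system with several components relative to a subfield.** -/
theorem stageG (hd : 1 ≤ d) {L L' : IntermediateField ℂ K} {V : Submodule ℂ K}
    (hLV : L' = L ⊔ rf V) {D : ℕ} (hL : Algebra.trdeg ℂ L = D)
    (hL' : Algebra.trdeg ℂ L' = (D + d : ℕ)) (hK : Algebra.trdeg ℂ K = (D + (d + e) : ℕ))
    (hA : Module.finrank (Pool.Agent.Y172.acl ℂ (L : Set K))
      (Submodule.span (Pool.Agent.Y172.acl ℂ (L : Set K)) (V : Set K)) = d + k + 1)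
    {φ : Fin q → K} (hφ0 : ∀ i, φ i ≠ 0) (hφ : Submodule.span ℂ (Set.range φ) = V)
    {γ : Fin q → Fin c} (hγ : Dcp (d + k) V φ γ)
    (hc : ∀ γ' : Fin q → Fin (c + 1), ¬ Dcp (d + k) V φ γ') {R : ℕ}
    (hR : R + c = d + k + 3 ∨
      (c = 1 ∧ (∃ τ : Fin (d + k + 3) → Fin q, ∀ i j, i ≠ j → ∀ t : ℂ, φ (τ i) ≠ t • φ (τ j)) ∧
        R = d + k + 1))
    (X : Set (Place ℂ K)) (δ₁ δ₂ δ : Place ℂ K → ℝ) (hδ₁ : ∀ P ∈ X, 0 ≤ δ₁ P)
    (hδ : ∀ P ∈ X, δ₁ P + δ₂ P ≤ δ P) {s : ℝ} {κ : ℕ}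
    (hs : (κ = 0 ∧ (R : ℝ) * ((k + 1) * (k + 2)) ≤ 2 * s) ∨
      (κ + c = d + 1 ∧ (R : ℝ) * ((k + 1) * (k + 2)) < 2 * s))
    (h : ∀ P ∈ X, Divisorial N P → ∀ a : ℤ, (∀ f ∈ V, f = 0 ∨ a ≤ P.ord f) →
      (∃ f ∈ V, f ≠ 0 ∧ P.ord f = a) → (∃ i, P.ord (φ i) ≠ a) →
      ∃ i i', γ i' = γ i ∧ s * (1 - δ₁ P) ≤ ((P.ord (φ i) - P.ord (φ i') : ℤ) : ℝ))
    {m : ℕ} (hm : 0 < m) {θ : Fin (lam + 1) → (Fin e → Derivation L' K K) → K}
    (hθ : ∀ b, FibSec N m X δ₂ L' (θ b))
    (hne : ∃ G, θ 0 G ≠ 0 ∧ AlgebraicIndependent L' (fun i : Fin lam => θ i.succ G / θ 0 G)) :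
    HasF N X δ L (d + e) (κ + lam) := by
  classical
  obtain ⟨y, ℓ, hliy, hℓ, hℓ0, hcomp, hspl, hspan, hB, hmem, hfm⟩ :=
    lin_data2 (R := R) hφ0 hφ hγ hc hR
  have hyV : ∀ j, y j ∈ V := fun j => by
    have := hmem (LinearMap.proj j)
    rwa [lf_proj] at this
  have hVy : ∀ f ∈ V, f ∈ Submodule.span ℂ (Set.range y) := by
    intro f hf
    obtain ⟨ψ, rfl⟩ := hfm f hf
    rw [lf_eq_smul]
    exact Submodule.sum_mem _ fun j _ => Submodule.smul_mem _ _ (Submodule.subset_span ⟨j, rfl⟩)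
  -- independence over the algebraic closure
  obtain ⟨A, hAd⟩ : ∃ A : IntermediateField ℂ K, A = Pool.Agent.Y172.acl ℂ (L : Set K) := ⟨_, rfl⟩
  have hliA : LinearIndependent A y := by
    rw [linearIndependent_iff_card_eq_finrank_span, Set.finrank, Fintype.card_fin]
    have h1 : Submodule.span A (Set.range y) = Submodule.span A (V : Set K) := by
      apply le_antisymm
      · refine Submodule.span_mono ?_
        rintro _ ⟨j, rfl⟩
        exact hyV j
      · rw [Submodule.span_le]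
        intro f hf
        have h2 := hVy f hf
        have h3 : Submodule.span ℂ (Set.range y) ≤
            (Submodule.span A (Set.range y)).restrictScalars ℂ := by
          rw [Submodule.span_le]
          intro z hz
          exact Submodule.subset_span hz
        exact h3 h2
    rw [h1]
    rw [← hAd] at hA
    exact hA.symm
  have hy0 : y 0 ≠ 0 := hliy.ne_zero 0
  obtain ⟨x, hx⟩ : ∃ x : Fin (d + k + 1) → K, ∀ j, x j = y j / y 0 := ⟨_, fun _ => rfl⟩
  have hx0 : x 0 = 1 := by rw [hx, div_self hy0]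
  have hyx : ∀ j, y j = x j * y 0 := fun j => by rw [hx, div_mul_cancel₀ _ hy0]
  have hlix : LinearIndependent A x := by
    rw [Fintype.linearIndependent_iff]
    intro c hc i
    refine Fintype.linearIndependent_iff.1 hliA c ?_ i
    have h1 : ∑ j, c j • y j = (∑ j, c j • x j) * y 0 := by
      rw [Finset.sum_mul]
      exact Finset.sum_congr rfl fun j _ => by rw [hyx j, smul_mul_assoc]
    rw [h1, hc, zero_mul]
  have hxy : ∀ φ : Form (d + k), lf φ y = lf φ x * y 0 := by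
    intro φ
    rw [lf_eq_smul, lf_eq_smul, Finset.sum_mul]
    exact Finset.sum_congr rfl fun j _ => by rw [hyx j, smul_mul_assoc]
  -- the fields
  have hle : L ≤ L' := by
    rw [hLV]
    exact le_sup_left
  have hrf : rf V ≤ L' := by
    rw [hLV]
    exact le_sup_right
  have hxL' : ∀ j, x j ∈ L' := fun j => hrf
    (IntermediateField.subset_adjoin ℂ _ ⟨y j, hyV j, y 0, hyV 0, hx j⟩)
  have hML' : ∀ z, z ∈ IntermediateField.adjoin L (Set.range x) ↔ z ∈ L' := by
    have h1 : IntermediateField.adjoin L (Set.range x) ≤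
        IntermediateField.extendScalars (F := L) (E := L') hle := by
      rw [IntermediateField.adjoin_le_iff]
      rintro _ ⟨j, rfl⟩
      exact hxL' j
    have h2 : L' ≤ (IntermediateField.adjoin L (Set.range x)).restrictScalars ℂ := by
      rw [hLV]
      refine sup_le (fun z hz => ?_) ?_
      · exact (IntermediateField.adjoin L (Set.range x)).algebraMap_mem ⟨z, hz⟩
      · unfold rf
        rw [IntermediateField.adjoin_le_iff]
        have h3 : ∀ f ∈ V, f / y 0 ∈ IntermediateField.adjoin L (Set.range x) := by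
          intro f hf
          obtain ⟨ψ, rfl⟩ := hfm f hf
          rw [hxy, mul_div_cancel_right₀ _ hy0, lf_eq_smul]
          refine sum_mem fun j _ => ?_
          rw [Algebra.smul_def]
          exact mul_mem ((IntermediateField.adjoin L (Set.range x)).algebraMap_mem
            (algebraMap ℂ L _)) (IntermediateField.subset_adjoin _ _ ⟨j, rfl⟩)
        rintro z ⟨f, hf, g, hg, rfl⟩
        have h4 := div_mem (h3 f hf) (h3 g hg)
        rwa [div_div_div_cancel_right₀ hy0] at h4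
    exact fun z => ⟨fun hz => h1 hz, fun hz => h2 hz⟩
  have hdM : Algebra.trdeg L (IntermediateField.adjoin L (Set.range x)) = d := by
    refine trdeg_over hL ?_
    rw [← hL']
    let ι : IntermediateField.adjoin L (Set.range x) ≃ₐ[ℂ] L' :=
      { toFun := fun z => ⟨z, (hML' z).1 z.2⟩
        invFun := fun z => ⟨z, (hML' z).2 z.2⟩
        left_inv := fun _ => rfl
        right_inv := fun _ => rfl
        map_mul' := fun _ _ => rfl
        map_add' := fun _ _ => rfl
        commutes' := fun _ => rfl }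
    exact ι.trdeg_eq
  obtain ⟨σ, u, Dt, Du, hσ, F, hxH, hHz⟩ := rel_frame (L := L) (e := e) hx0 hdM
    (trdeg_over hL hK)
  have hh := lin_high2 (N := N) (X := X) (δ := δ₁) (s := s) (γ := γ) hφ0 hℓ hmem
    hfm hy0 hxy h
  rw [hAd] at hlix
  rcases hs with ⟨rfl, hs⟩ | ⟨hκ, hs⟩
  · obtain ⟨M, hM, f, hf, hest⟩ := rest (by omega) hℓ0 hcomp hspl hspan hB
      hlix rfl σ hσ F hxH X δ₁ hδ₁ hs hh
    obtain ⟨ω, h1, h2⟩ := F.pairs (N := N) (κ := 0) (w := fun _ => 1) (L' := L') hle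
      (fun f hf => hHz f ((hML' f).2 hf)) (fun j => hxL' _) hδ hm (fun b => (hθ b).1)
      (fun P hPX hPd G hG b => (hθ b).2 P hPX hPd G hG) hne hM hf rfl
      (by
        rw [algebraicIndependent_empty_type_iff]
        exact (algebraMap L K).injective) (fun _ => one_mem _)
      (fun P hPX hPd E hE hEL _ => by
        obtain ⟨c', h3, h4⟩ := hest P hPX hPd E hE hEL
        exact ⟨c', by rwa [mul_one], h4⟩)
    exact ⟨M * m, Nat.mul_pos hM hm, ω, h1, h2⟩
  · obtain ⟨M, hM, f, hf, w, hw0, hw, hwL, hest⟩ := rest_kod (by omega) hℓ0 hcomp hspl hspan hB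
      hlix rfl hx0 hdM σ hσ F hxH X δ₁ hδ₁ hs hh hκ
    obtain ⟨ω, h1, h2⟩ := F.pairs (N := N) (κ := κ) (L' := L') hle
      (fun f hf => hHz f ((hML' f).2 hf)) (fun j => hxL' _) hδ hm (fun b => (hθ b).1)
      (fun P hPX hPd G hG b => (hθ b).2 P hPX hPd G hG) hne hM hf hw0 hw
      (fun j => (hML' _).1 (hwL j)) hest
    exact ⟨M * m, Nat.mul_pos hM hm, ω, h1, h2⟩

end Pool.Agent.Q298.GS
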